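import Pool.Agent.H74R2.TF.Wrd

set_option autoImplicit false

open scoped Classical

namespace Pool.Agent.H74R2.TF

open Pool.Agent.FBZ

variable {K : Type} [Field K] {n : ℕ}

/-- the model group -/
abbrev WG (K : Type) [Field K] (n : ℕ) : Type := Con (sdat (fdat (P := PP) (tau K n)))

/-- inclusion of the acting group -/
noncomputable def inq : Con (mdat K n) × PP →* WG K n where
  toFun q := ⟨0, (), q⟩
  map_one' := rfl
  map_mul' q q' := by
    refine FBZ.Con.ext ?_ (Subsingleton.elim _ _) rfl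
    simp

@[simp] theorem inq_a (q : Con (mdat K n) × PP) : (inq q).a = 0 := rfl
@[simp] theorem inq_q (q : Con (mdat K n) × PP) : (inq q).q = q := rfl

/-- the elements of the group of order five -/
def ss (x : ZMod 5) : PP := Multiplicative.ofAdd x

theorem ss_inv_mul (x y : ZMod 5) : (ss x)⁻¹ * ss y = ss (y - x) := by
  show Multiplicative.ofAdd (-x + y) = Multiplicative.ofAdd (y - x)
  rw [neg_add_eq_sub]

theorem single_ss {V : Type} [AddCommGroup V] (f : V) (x : ZMod 5) :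
    (Pi.single (1 : PP) f : PP → V) (ss x) = if x = 0 then f else 0 := by
  by_cases hx : x = 0
  · subst hx
    have : ss 0 = (1 : PP) := rfl
    rw [this, Pi.single_eq_same, if_pos rfl]
  · have : ss x ≠ (1 : PP) := fun h => hx (congrArg Multiplicative.toAdd h)
    rw [Pi.single_eq_of_ne this, if_neg hx]

/-- the class function -/
noncomputable def ff (h2 : (2 : K) = 0) (h3 : ∀ c : Kˣ, c ^ 3 = 1) (n : ℕ) : WW K n :=
  ⟨fun γ => γ.c, cfun_mem h2 h3⟩

/-- the homomorphism refuting the law -/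
noncomputable def psi (h2 : (2 : K) = 0) (h3 : ∀ c : Kˣ, c ^ 3 = 1) (t : Kˣ) (n : ℕ) :
    FreeGroup ℕ →* WG K n :=
  FreeGroup.lift fun i => match i with
    | 0 => ⟨Pi.single 1 (ff h2 h3 n), (), 1⟩
    | 1 => inq (1, ss 1)
    | 2 => inq (⟨Pi.single 1 1, 0, 1⟩, 1)
    | 3 => inq (⟨0, 0, (1, t)⟩, 1)
    | i + 4 => if h : i < n then inq (⟨0, 0, (⟨Pi.single ⟨i, h⟩ 1, 0⟩, 1)⟩, 1) else 1

/-- the translation action on a single coordinate -/
theorem act_ss (g : PP → WW K n) (x y : ZMod 5) :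
    (sdat (fdat (P := PP) (tau K n))).pe (1, ss x) g (ss y) = g (ss (y - x)) := by
  show fdat (tau K n) (1, ss x) g (ss y) = _
  rw [fdat_apply, map_one, ss_inv_mul, Module.End.one_apply]

theorem psi_bw (h2 : (2 : K) = 0) (h3 : ∀ c : Kˣ, c ^ 3 = 1) (t : Kˣ) (n : ℕ) :
    psi h2 h3 t n bw = inq (1, ss 1) := by
  have h1 : psi h2 h3 t n (FreeGroup.of 1) = inq (1, ss 1) := by simp [psi]
  have h4 : (((1 : Con (mdat K n)), ss 1) : Con (mdat K n) × PP) ^ 36 = (1, ss 1) := by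
    rw [Prod.pow_mk, one_pow, show (36 : ℕ) = 5 * 7 + 1 from rfl, pow_succ, pow_mul, pp_pow,
      one_pow, one_mul]
  rw [bw, map_pow, h1, ← map_pow, h4]

theorem psi_vw (h2 : (2 : K) = 0) (h3 : ∀ c : Kˣ, c ^ 3 = 1) (t : Kˣ) (n : ℕ) :
    (psi h2 h3 t n vw).q = 1 ∧ (psi h2 h3 t n vw).a (ss 0) = ff h2 h3 n := by
  have h1 := psi_bw h2 h3 t n
  have h0 : psi h2 h3 t n (FreeGroup.of 0) = ⟨Pi.single 1 (ff h2 h3 n), (), 1⟩ := by simp [psi]
  have hq : ∀ x : WG K n, x.q = 1 → (cm x (inq (1, ss 1))).q = 1 := by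
    intro x hx
    rw [cm_q, hx]; exact cm_eq_one (by rw [one_mul, mul_one])
  have hq0 : (psi h2 h3 t n (FreeGroup.of 0)).q = 1 := by rw [h0]
  rw [vw, map_cm, map_cm, map_cm, h1]
  have hq1 := hq _ hq0
  have hq2 := hq _ hq1
  have hq3 := hq _ hq2
  refine ⟨hq3, ?_⟩
  rw [cm_a1 _ _ hq2, cm_a1 _ _ hq1, cm_a1 _ _ hq0, inq_q]
  simp only [Pi.sub_apply, act_ss]
  rw [h0]
  simp only [single_ss]
  have d2 : ((0 : ZMod 5) - 1 = 0) = False := eq_false (by decide)
  have d3 : ((0 : ZMod 5) - 1 - 1 = 0) = False := eq_false (by decide)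
  have d4 : ((0 : ZMod 5) - 1 - 1 - 1 = 0) = False := eq_false (by decide)
  simp only [d2, d3, d4, if_true, if_false]
  abel

/-! ### the factors coming from the model -/

theorem cm_inq (x y : Con (mdat K n) × PP) : cm (inq x) (inq y) = inq (cm x y) := (map_cm inq x y).symm

theorem pow_P (t : Kˣ) (m : ℕ) : ((⟨0, 0, (1, t)⟩ : Con (mdat K n)) ^ m) = ⟨0, 0, (1, t ^ m)⟩ := by
  induction m with
  | zero => rw [pow_zero, pow_zero]; rfl
  | succ m ih =>
    rw [pow_succ, ih]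
    refine FBZ.Con.ext ?_ ?_ ?_
    · simp
    · simp
    · simp [pow_succ]

/-- the value of the word `aw` -/
theorem psi_aw (h2 : (2 : K) = 0) (h3 : ∀ c : Kˣ, c ^ 3 = 1) (t : Kˣ) (n : ℕ) :
    ∃ A : Con (mdat K n),
    psi h2 h3 t n aw = inq (A, 1) ∧ A.q = 1 ∧
    A.a = Pi.single 1 (1 - (t : K) ^ 20) := by
  have e2 : psi h2 h3 t n (FreeGroup.of 2) = inq (⟨Pi.single 1 1, 0, 1⟩, 1) := by simp [psi]
  have e3 : psi h2 h3 t n (FreeGroup.of 3) = inq (⟨0, 0, (1, t)⟩, 1) := by simp [psi]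
  refine ⟨cm (⟨Pi.single 1 1, 0, 1⟩ : Con (mdat K n)) (⟨0, 0, (1, t)⟩ ^ 20), ?_, ?_, ?_⟩
  · rw [aw, map_cm, map_pow, e2, e3, ← map_pow, cm_inq, Prod.pow_mk, one_pow]
    refine congrArg inq (Prod.ext rfl ?_)
    exact cm_eq_one rfl
  · rw [cm_q]
    exact cm_eq_one (by rw [one_mul, mul_one])
  · rw [cm_a1 _ _ rfl, pow_P]
    show (Pi.single 1 1 : Hn n → K) - (mdat K n).pe (1, t ^ 20) (Pi.single 1 1) = _
    rw [mpe_single, mul_one, mul_one, ← Pi.single_sub, Units.val_pow_eq_pow_val]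

/-- the value of the word `cw` -/
theorem psi_cw (h2 : (2 : K) = 0) (h3 : ∀ c : Kˣ, c ^ 3 = 1) (t : Kˣ) (n m : ℕ) (hm : m ≤ n) :
    ∃ C : Con (mdat K n),
    psi h2 h3 t n (cw m) = inq (C, 1) ∧ C.a = 0 ∧
    C.q = (⟨0, fun i j => if i = j ∧ i.val < m then 1 else 0⟩, 1) := by
  induction m with
  | zero =>
    refine ⟨1, ?_, rfl, ?_⟩
    · simp only [cw, map_one]
      rfl
    · simp only [Con.one_q, Nat.not_lt_zero, and_false, if_false]
      rfl
  | succ m ih =>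
    obtain ⟨C, hC, ih1, ih2⟩ := ih (by omega)
    have hX : psi h2 h3 t n (FreeGroup.of (m + 4)) =
        inq ((⟨0, 0, (⟨Pi.single ⟨m, by omega⟩ 1, 0⟩, 1)⟩ : Con (mdat K n)), 1) := by
      have : m < n := by omega
      simp [psi, this]
    refine ⟨C * (⟨0, 0, (⟨Pi.single ⟨m, by omega⟩ 1, 0⟩, 1)⟩ : Con (mdat K n)) ^ 2, ?_, ?_, ?_⟩
    · rw [cw, map_mul, map_pow, hX, hC, ← map_pow, ← map_mul]
      rfl
    · simp [ih1, pow_two]
    · simp only [pow_two, Con.mul_q, ih2]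
      refine Prod.ext (Hn.ext ?_ ?_) ?_
      · simp [vadd_self]
      · funext i j
        simp only [Prod.mk_mul_mk, Hn.mul_w, Hn.mul_e, Pi.add_apply, Pi.zero_apply,
          zero_mul, add_zero, zero_add, Pi.single_apply, mul_ite, mul_one, mul_zero, Fin.ext_iff]
        by_cases h1 : i.val = j.val
        · by_cases h3 : j.val = m
          · simp [h1, h3]
          · by_cases h4 : j.val < m
            · simp [h1, h3, h4, Nat.lt_succ_of_lt h4]
            · have : ¬ j.val < m + 1 := by omega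
              simp [h1, h3, h4, this]
        · by_cases h3 : j.val = m
          · have h5 : ¬ i.val = m := by omega
            simp [h3, h5]
          · simp [h1, h3]
      · simp

/-- the law fails in the model group -/
theorem Lw_fails (h2 : (2 : K) = 0) (h3 : ∀ c : Kˣ, c ^ 3 = 1) (t : Kˣ) (ht : t ≠ 1) (n : ℕ) :
    (psi h2 h3 t n (Lw n)).a ≠ 0 := by
  intro hcon
  obtain ⟨hvq, hva⟩ := psi_vw h2 h3 t n
  obtain ⟨A, hA, hAq, hAa⟩ := psi_aw h2 h3 t n
  obtain ⟨C, hC, hCa, hCq⟩ := psi_cw h2 h3 t n n le_rfl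
  have hcac : psi h2 h3 t n (cw n * aw * (cw n)⁻¹) = inq (C * A * C⁻¹, 1) := by
    rw [map_mul, map_mul, map_inv, hA, hC, ← map_inv, ← map_mul, ← map_mul]
    have hcc : ((C, 1) * (A, 1) * (C, 1)⁻¹ : Con (mdat K n) × PP) = (C * A * C⁻¹, 1) :=
      Prod.ext rfl (by simp)
    exact congrArg inq hcc
  rw [Lw, map_cm, map_cm, hA, hcac] at hcon
  set v := psi h2 h3 t n vw with hv
  set κ := 1 - (t : K) ^ 20 with hκ
  have hq1 : (cm v (inq (A, 1))).q = 1 := by
    rw [cm_q, hvq]; exact cm_eq_one (by rw [one_mul, mul_one])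
  rw [cm_a1 (cm v (inq (A, 1))) _ hq1, cm_a1 v (inq (A, 1)) hvq] at hcon
  set A' := C * A * C⁻¹ with hA'
  have h1 := congrFun hcon (ss 0)
  have h4' : ∀ (B : Con (mdat K n)) (g : PP → WW K n),
      (sdat (fdat (P := PP) (tau K n))).pe (inq (B, 1)).q g (ss 0) = tau K n B (g (ss 0)) := by
    intro B g
    show fdat (tau K n) (B, 1) g (ss 0) = _
    rw [fdat_apply]
    simp
  rw [Pi.sub_apply, h4', Pi.sub_apply, h4', hva] at h1
  have h4 := congrFun (congrArg Subtype.val h1) (1 : Con (mdat K n))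
  have h5 : ((1 : Con (mdat K n)).c - (1 * A).c) - ((1 * A').c - (1 * A' * A).c) = 0 := h4
  have hA'q : A'.q = 1 := by simp [hA', hAq]
  rw [one_mul, one_mul, Con.one_c, Con.mul_c A' A, hA'q, map_one, map_one, Module.End.one_apply,
    Module.End.one_apply] at h5
  have hA'a : A'.a = Pi.single C.q.1 κ := by
    rw [hA', Con.mul_a, Con.mul_a, Con.inv_a, hCa, hAa, map_zero, neg_zero, map_zero, add_zero,
      zero_add, mpe_single, mul_one, hCq]
    simp
  have hphi : phi K C.q.1 1 = 1 := by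
    rw [phi_symm, phi_eq, hCq]
    simp only [Hn.one_e, if_true, Hn.one_w, zero_add]
    refine Dc_one _ _ fun z hz => ?_
    rw [← hz]
    funext j
    simp [ctr]
  rw [hAa, hA'a, mom_single, hphi] at h5
  have h6 : κ * κ = 0 := by linear_combination h5
  have h7 : κ = 0 := mul_self_eq_zero.mp h6
  have h8 : (t : K) ^ 20 = 1 := by rw [hκ] at h7; linear_combination -h7
  have h9 : t ^ 20 = 1 := Units.ext (by simpa using h8)
  have h10 : t ^ 20 = t ^ 2 := by
    rw [show (20 : ℕ) = 3 * 6 + 2 from rfl, pow_add, pow_mul, h3, one_pow, one_mul]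
  have h11 : t ^ 2 = 1 := by rw [← h10, h9]
  apply ht
  calc t = t ^ 3 := by rw [show (3 : ℕ) = 2 + 1 from rfl, pow_succ, h11, one_mul]
    _ = 1 := h3 t

end Pool.Agent.H74R2.TF
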