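import Pool.Agent.H74R2.TF.Can

set_option autoImplicit false

open scoped Classical

namespace Pool.Agent.H74R2.TF

open Pool.Agent.FBZ

/-- the top group -/
abbrev TT : Type := Wr ℤˣ × C3

/-- the data of the representation in characteristic zero -/
noncomputable def gdat : Dat ℤ TT (ZMod 2 → ℂ × ℂ) (ZMod 2 → ℂ) where
  pe :=
    { toFun := fun q =>
        { toFun := fun a m => vl (q.1.b m, q.2) • a (m + q.1.s)
          map_add' := by intro a b; funext x; simp [smul_add]
          map_smul' := by intro r a; funext x; exact smul_comm (vl (q.1.b x, q.2)) r (a (x + q.1.s)) }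
      map_one' := by
        refine LinearMap.ext fun a => ?_
        funext x
        show vl (1, 1) • a (x + 0) = a x
        rw [show ((1, 1) : ℤˣ × C3) = 1 from rfl, map_one, one_smul, add_zero]
      map_mul' := by
        intro q q'
        refine LinearMap.ext fun a => ?_
        funext x
        show vl ((q.1.b x, q.2) * (q'.1.b (x + q.1.s), q'.2)) • a (x + (q.1.s + q'.1.s)) =
          vl (q.1.b x, q.2) • (vl (q'.1.b (x + q.1.s), q'.2) • a (x + q.1.s + q'.1.s))
        rw [map_mul, mul_smul, add_assoc] }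
  pz :=
    { toFun := fun q =>
        { toFun := fun z m => vl (q.1.b m, q.2) ^ 2 * z (m + q.1.s)
          map_add' := by intro a b; funext x; simp [mul_add]
          map_smul' := by intro r a; funext x; simp [mul_left_comm] }
      map_one' := by
        refine LinearMap.ext fun a => ?_
        funext x
        show vl (1, 1) ^ 2 * a (x + 0) = a x
        rw [show ((1, 1) : ℤˣ × C3) = 1 from rfl, map_one, one_pow, one_mul, add_zero]
      map_mul' := by
        intro q q'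
        refine LinearMap.ext fun a => ?_
        funext x
        show vl ((q.1.b x, q.2) * (q'.1.b (x + q.1.s), q'.2)) ^ 2 * a (x + (q.1.s + q'.1.s)) =
          vl (q.1.b x, q.2) ^ 2 * (vl (q'.1.b (x + q.1.s), q'.2) ^ 2 * a (x + q.1.s + q'.1.s))
        rw [map_mul, mul_pow, mul_assoc, add_assoc] }
  om := LinearMap.mk₂ ℤ (fun a b => fun m => (a m).1 * (b m).2 - (a m).2 * (b m).1)
    (by intro a a' b; funext m; simp; ring)
    (by intro r a b; funext m; simp; ring)
    (by intro a b b'; funext m; simp; ring)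
    (by intro r a b; funext m; simp; ring)
  eqv := by
    intro q a b
    funext m
    simp only [LinearMap.mk₂_apply, LinearMap.coe_mk, AddHom.coe_mk, MonoidHom.coe_mk,
      OneHom.coe_mk, Prod.smul_fst, Prod.smul_snd, smul_eq_mul]
    ring

variable {K : Type} [Field K] {n : ℕ}

/-- constants in the top group -/
def cst : C3 →* TT where
  toFun u := (1, u)
  map_one' := rfl
  map_mul' u v := by
    refine Prod.ext ?_ rfl
    exact (one_mul (1 : Wr ℤˣ)).symm

theorem rg_of {X : Type} (Y : UZ ℤ X)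
    (hG : ∀ φ : FreeGroup X →* Con gdat, LZ gdat φ Y = 0) : RG Y.1 := by
  intro Ψ a
  let φ : FreeGroup X →* Con gdat :=
    FreeGroup.lift fun x => ⟨fun m => ((a x m).1, (a x m).2), 0, Ψ (FreeGroup.of x)⟩
  have hq : ∀ g, (φ g).q = Ψ g := by
    intro g
    have : (Con.proj gdat).comp φ = Ψ := by
      apply FreeGroup.ext_hom
      intro x
      simp [φ, Con.proj]
    exact DFunLike.congr_fun this g
  have ha : ∀ x, (φ (FreeGroup.of x)).a = fun m => (((a x m).1 : ℂ), ((a x m).2 : ℂ)) := by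
    intro x; simp [φ]
  have hc : ∀ x, (φ (FreeGroup.of x)).c = 0 := by intro x; simp [φ]
  have h0 := congrFun (hG φ) 0
  rw [LZ, LinearMap.coprod_apply, LZ1] at h0
  simp only [hc, map_zero] at h0
  have h1 : (Finsupp.linearCombination ℤ fun _ : FreeGroup X × X => (0 : ZMod 2 → ℂ)) Y.2 = 0 := by
    rw [Finsupp.linearCombination_apply]
    simp
  rw [h1, add_zero] at h0
  have h2 : (LinearMap.proj (R := ℤ) (φ := fun _ : ZMod 2 => ℂ) 0) (LZ2 gdat φ Y.1) = 0 := h0
  rw [LZ2, Finsupp.apply_linearCombination] at h2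
  rw [← h2]
  congr 2
  funext p
  simp only [Function.comp_apply, hq, ha]
  show _ = (vl ((Ψ p.1.1).1.b 0, (Ψ p.1.1).2) • (((a p.1.2 (0 + (Ψ p.1.1).1.s)).1 : ℂ),
      ((a p.1.2 (0 + (Ψ p.1.1).1.s)).2 : ℂ))).1 *
    (vl ((Ψ p.2.1).1.b 0, (Ψ p.2.1).2) • (((a p.2.2 (0 + (Ψ p.2.1).1.s)).1 : ℂ),
      ((a p.2.2 (0 + (Ψ p.2.1).1.s)).2 : ℂ))).2 -
    (vl ((Ψ p.1.1).1.b 0, (Ψ p.1.1).2) • (((a p.1.2 (0 + (Ψ p.1.1).1.s)).1 : ℂ),
      ((a p.1.2 (0 + (Ψ p.1.1).1.s)).2 : ℂ))).2 *
    (vl ((Ψ p.2.1).1.b 0, (Ψ p.2.1).2) • (((a p.2.2 (0 + (Ψ p.2.1).1.s)).1 : ℂ),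
      ((a p.2.2 (0 + (Ψ p.2.1).1.s)).2 : ℂ))).1
  have h3 : vl ((Ψ p.1.1).1.b 0 * (Ψ p.2.1).1.b 0, (Ψ p.1.1).2 * (Ψ p.2.1).2) =
      vl ((Ψ p.1.1).1.b 0, (Ψ p.1.1).2) * vl ((Ψ p.2.1).1.b 0, (Ψ p.2.1).2) :=
    map_mul vl ((Ψ p.1.1).1.b 0, (Ψ p.1.1).2) ((Ψ p.2.1).1.b 0, (Ψ p.2.1).2)
  simp only [kr, Om, zero_add, Prod.smul_fst, Prod.smul_snd, smul_eq_mul, h3,
    zsmul_eq_mul]
  push_cast
  ring

theorem lin_univ {X : Type} (Y : UZ ℤ X)
    (hG : ∀ φ : FreeGroup X →* Con gdat, LZ gdat φ Y = 0)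
    {B : Type} [CommGroup B] (hB : ∀ b : B, b ^ 3 = 1) (ψ : FreeGroup X →* B) (f : B → K) (x : X) :
    Finsupp.linearCombination ℤ
      (fun p : FreeGroup X × X => if p.2 = x then f ((ψ p.1) ^ 2) else 0) Y.2 = 0 := by
  obtain ⟨L, hL⟩ := lift3 hB fun i : X => ψ (FreeGroup.of i)
  let U : FreeGroup X →* F3 X :=
    FreeGroup.lift fun x => Multiplicative.ofAdd (Finsupp.single x 1)
  have hU : L.comp U = ψ := by
    ext x
    simp [U, hL]
  let F : (FreeGroup X × X) → (F2 Empty × F3 X →₀ ℤ) :=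
    fun p => if p.2 = x then Finsupp.single (1, (U p.1) ^ 2) 1 else 0
  have hF : ∀ {M : Type} [AddCommGroup M] (g : F2 Empty × F3 X → M),
      Finsupp.linearCombination ℤ g (Finsupp.linearCombination ℤ F Y.2) =
        Finsupp.linearCombination ℤ
          (fun p : FreeGroup X × X => if p.2 = x then g (1, (U p.1) ^ 2) else 0) Y.2 := by
    intro M _ g
    rw [Finsupp.apply_linearCombination]
    congr 2
    funext p
    simp only [F, Function.comp_apply]
    split_ifs <;> simp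
  have hA : Finsupp.linearCombination ℤ F Y.2 = 0 := by
    refine ded _ fun χ => ?_
    have h5 : Finsupp.linearCombination ℤ
        (fun p : FreeGroup X × X => if p.2 = x then vl (χ.1 1, χ.2 ((U p.1) ^ 2)) else 0) Y.2
          = 0 := by
      let φ : FreeGroup X →* Con gdat :=
        FreeGroup.lift fun y => ⟨0, fun _ => if y = x then 1 else 0, cst (χ.2 (U (FreeGroup.of y)))⟩
      have hq : ∀ g, (φ g).q = cst (χ.2 (U g)) := by
        intro g
        have : (Con.proj gdat).comp φ = cst.comp (χ.2.comp U) := by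
          apply FreeGroup.ext_hom
          intro y
          simp [φ, Con.proj]
        exact DFunLike.congr_fun this g
      have ha : ∀ y, (φ (FreeGroup.of y)).a = 0 := by intro y; simp [φ]
      have hc : ∀ y, (φ (FreeGroup.of y)).c = fun _ => if y = x then 1 else 0 := by
        intro y; simp [φ]
      have h0 := congrFun (hG φ) 0
      rw [LZ, LinearMap.coprod_apply, LZ2] at h0
      simp only [ha, map_zero] at h0
      have h1 : (Finsupp.linearCombination ℤ fun _ : (FreeGroup X × X) × (FreeGroup X × X) =>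
          (0 : ZMod 2 → ℂ)) Y.1 = 0 := by
        rw [Finsupp.linearCombination_apply]
        simp
      rw [h1, zero_add] at h0
      have h2 : (LinearMap.proj (R := ℤ) (φ := fun _ : ZMod 2 => ℂ) 0) (LZ1 gdat φ Y.2) = 0 := h0
      rw [LZ1, Finsupp.apply_linearCombination] at h2
      refine Eq.trans ?_ h2
      congr 2
      funext p
      simp only [Function.comp_apply, hq, hc]
      show _ = vl ((1 : Wr ℤˣ).b 0, χ.2 (U p.1)) ^ 2 * (if p.2 = x then (1 : ℂ) else 0)
      split_ifs with h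
      · rw [mul_one, map_pow, ← map_pow vl]
        congr 1
        refine Prod.ext ?_ rfl
        rw [map_one]
        rfl
      · rw [mul_zero]
    exact (hF (M := ℂ) _).trans h5
  have h0 := hF (fun y => f (L y.2))
  rw [hA, map_zero] at h0
  refine Eq.trans ?_ h0.symm
  congr 2
  funext p
  simp only [← hU, MonoidHom.comp_apply, map_pow]

theorem lin_of (h3 : ∀ c : Kˣ, c ^ 3 = 1) (z : Vn n) (Y : UZ ℤ (Gn K n z))
    (hG : ∀ φ : FreeGroup (Gn K n z) →* Con gdat, LZ gdat φ Y = 0) :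
    LZ1 (mdat K n) (can z) Y.2 = 0 := by
  have hcc : ∀ y : Gn K n z, (can z (FreeGroup.of y)).c = (canx z y).c := by
    intro y; simp [can]
  have key : ∀ p : FreeGroup (Gn K n z) × Gn K n z,
      (mdat K n).pz (can z p.1).q (can z (FreeGroup.of p.2)).c =
      ((qn z p.1).2 : K) ^ 2 * (canx z p.2).c := by
    intro p
    rw [hcc]
    rfl
  have h1 : ∀ x : Gn K n z, Finsupp.linearCombination ℤ
      (fun p : FreeGroup (Gn K n z) × Gn K n z =>
        if p.2 = x then ((qn z p.1).2 : K) ^ 2 * (canx z x).c else 0) Y.2 = 0 := by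
    intro x
    have := lin_univ Y hG h3 ((MonoidHom.snd (Hn n) Kˣ).comp (qn z))
      (fun v : Kˣ => (v : K) * (canx z x).c) x
    simpa using this
  unfold LZ1
  simp only [key]
  have h2 : ∀ p ∈ Y.2.support, ((qn z p.1).2 : K) ^ 2 * (canx z p.2).c =
      ∑ x ∈ Y.2.support.image Prod.snd,
        if p.2 = x then ((qn z p.1).2 : K) ^ 2 * (canx z x).c else 0 := by
    intro p hp
    rw [Finset.sum_ite_eq, if_pos (Finset.mem_image_of_mem _ hp)]
  rw [Finsupp.linearCombination_apply, Finsupp.sum]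
  rw [Finset.sum_congr rfl fun p hp => by rw [h2 p hp]]
  simp only [Finset.smul_sum]
  rw [Finset.sum_comm]
  refine Finset.sum_eq_zero fun x _ => ?_
  have := h1 x
  rw [Finsupp.linearCombination_apply, Finsupp.sum] at this
  exact this

theorem KLem (h2 : (2 : K) = 0) (h3 : ∀ c : Kˣ, c ^ 3 = 1)
    (z : Vn n) (hz : z ≠ 0) (Y : UZ ℤ (Gn K n z))
    (hG : ∀ φ : FreeGroup (Gn K n z) →* Con gdat, LZ gdat φ Y = 0) :
    LZ (mdat K n) (can z) Y = 0 := by
  rw [LZ, LinearMap.coprod_apply, lin_of h3 z Y hG, add_zero]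
  exact quad h2 h3 z hz Y.1 (RP_of_RG _ (rg_of Y hG))

theorem univ_c' {Q E Z X : Type} [Group Q] [AddCommGroup E]
    [AddCommGroup Z] (D : Dat ℤ Q E Z) (f : FreeGroup X →* Con D) (k : FreeGroup X) :
    (f k).c = LZ D f (Ups ℤ X k).c := by
  rw [univ_c D f k, LZ, LinearMap.coprod_apply]

/-- identities of the integral representation -/
def IsId (u : FreeGroup ℕ →₀ ℤ) : Prop :=
  ∀ (φ : FreeGroup ℕ →* Con gdat) (v : ℤ × (ZMod 2 → ℂ × ℂ) × (ZMod 2 → ℂ)),
    (u.sum fun k r => r • Con.rep gdat (φ k) v) = 0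

theorem main1 (h2 : (2 : K) = 0) (h3 : ∀ c : Kˣ, c ^ 3 = 1)
    (z : Vn n) (hz : z ≠ 0) (u : FreeGroup ℕ →₀ ℤ) (hu : IsId u)
    (j : FreeGroup ℕ →* FreeGroup (Gn K n z)) (y : FreeGroup (Gn K n z)) :
    (u.sum fun k r => r • (can z (y * j k)).c) = 0 := by
  let Y : UZ ℤ (Gn K n z) := u.sum fun k r => r • (Ups ℤ (Gn K n z) (y * j k)).c
  have hL : ∀ {Q E Z : Type} [Group Q] [AddCommGroup E]
      [AddCommGroup Z] (D : Dat ℤ Q E Z) (f : FreeGroup (Gn K n z) →* Con D),
      LZ D f Y = u.sum fun k r => r • (f (y * j k)).c := by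
    intro Q E Z _ _ _ D f
    simp only [Y, Finsupp.sum, map_sum, map_smul, univ_c' D f]
  have h1 := KLem h2 h3 z hz Y ?_
  · rw [hL] at h1
    exact h1
  · intro φ
    rw [hL]
    have h4 := hu (φ.comp j) ((1, 0, 0) : ℤ × (ZMod 2 → ℂ × ℂ) × (ZMod 2 → ℂ))
    have h5 := congrArg (Con.rep gdat (φ y)) h4
    rw [map_zero, Finsupp.sum, map_sum] at h5
    have h6 := congrArg (fun v : ℤ × (ZMod 2 → ℂ × ℂ) × (ZMod 2 → ℂ) => v.2.2) h5
    simp only [Prod.snd_sum, Prod.snd_zero] at h6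
    rw [Finsupp.sum, ← h6]
    refine Finset.sum_congr rfl fun k _ => ?_
    have h7 : Con.rep gdat (φ y) (u k • Con.rep gdat ((φ.comp j) k) (1, 0, 0)) =
        u k • Con.rep gdat (φ (y * j k)) (1, 0, 0) := by
      rw [map_smul, map_mul, map_mul]
      rfl
    rw [h7]
    simp

end Pool.Agent.H74R2.TF
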