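import Pool.Agent.FBZ.Univ
import Pool.Agent.FBZ.Cnt

set_option autoImplicit false

open scoped Classical

namespace Pool.Agent.H74R2.TF

open Pool.Agent.FBZ

variable {K : Type} [Field K] {X : Type}

/-- the group of order three -/
abbrev C3 : Type := Multiplicative (ZMod 3)

/-- the faithful character of the group of order three -/
noncomputable def om3 : C3 →* ℂ where
  toFun x := (ZMod.stdAddChar (N := 3) (Multiplicative.toAdd x) : ℂ)
  map_one' := by
    show (ZMod.stdAddChar (N := 3) 0 : ℂ) = 1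
    exact AddChar.map_zero_eq_one _
  map_mul' x y := by
    show (ZMod.stdAddChar (N := 3) (Multiplicative.toAdd x + Multiplicative.toAdd y) : ℂ) = _
    exact AddChar.map_add_eq_mul _ _ _

theorem om3_inj : Function.Injective om3 := by
  intro x y h
  exact ZMod.injective_stdAddChar h

/-- the value in `ℂ` of a pair (sign, cube root of unity) -/
noncomputable def vl : ℤˣ × C3 →* ℂ where
  toFun p := (((p.1 : ℤˣ) : ℤ) : ℂ) * om3 p.2
  map_one' := by simp
  map_mul' p q := by
    simp only [Prod.fst_mul, Prod.snd_mul, Units.val_mul, Int.cast_mul, map_mul]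
    ring

def Om (x y : ℤ × ℤ) : ℤ := x.1 * y.2 - x.2 * y.1

/-- the kernel attached to a homomorphism to `Wr B × C` -/
noncomputable def kr {B C M : Type} [CommGroup B] [CommGroup C] [AddCommGroup M]
    (Ψ : FreeGroup X →* Wr B × C)
    (a : X → ZMod 2 → ℤ × ℤ) (f : B × C → M) (p : (FreeGroup X × X) × (FreeGroup X × X)) : M :=
  Om (a p.1.2 (Ψ p.1.1).1.s) (a p.2.2 (Ψ p.2.1).1.s) •
    f ((Ψ p.1.1).1.b 0 * (Ψ p.2.1).1.b 0, (Ψ p.1.1).2 * (Ψ p.2.1).2)

def RG (Y : UZ2 ℤ X) : Prop :=
  ∀ (Ψ : FreeGroup X →* Wr ℤˣ × C3) (a : X → ZMod 2 → ℤ × ℤ),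
    Finsupp.linearCombination ℤ (kr Ψ a fun x => vl x) Y = 0

def RP (K : Type) [Field K] (Y : UZ2 ℤ X) : Prop :=
  ∀ (B : Type) [CommGroup B] (_ : ∀ b : B, b * b = 1) (C : Type) [CommGroup C]
    (_ : ∀ c : C, c ^ 3 = 1) (Ψ : FreeGroup X →* Wr B × C) (a : X → ZMod 2 → ℤ × ℤ)
    (f : B × C → K), Finsupp.linearCombination ℤ (kr Ψ a f) Y = 0

/-- functoriality of `Wr` -/
def Wr.map {B B' : Type} [CommGroup B] [CommGroup B'] (L : B →* B') : Wr B →* Wr B' where
  toFun x := ⟨fun m => L (x.b m), x.s⟩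
  map_one' := by ext m <;> simp
  map_mul' x y := by ext m <;> simp

/-- the free objects -/
abbrev F2 (ι : Type) : Type := Multiplicative (ι →₀ ZMod 2)
abbrev F3 (ι : Type) : Type := Multiplicative (ι →₀ ZMod 3)

abbrev Ch (ι κ : Type) : Type := (F2 ι →* ℤˣ) × (F3 κ →* C3)

/-- sign character of `ZMod 2` -/
def sg : Multiplicative (ZMod 2) →* ℤˣ where
  toFun x := if Multiplicative.toAdd x = 0 then 1 else -1
  map_one' := by simp
  map_mul' x y := by
    have h : ∀ a b : ZMod 2, (if a + b = 0 then (1 : ℤˣ) else -1) =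
      (if a = 0 then (1 : ℤˣ) else -1) * (if b = 0 then (1 : ℤˣ) else -1) := by decide
    exact h _ _

theorem sg_inj : Function.Injective sg := by
  intro x y h
  have h1 : ∀ a b : ZMod 2, (if a = 0 then (1 : ℤˣ) else -1) = (if b = 0 then (1 : ℤˣ) else -1) →
      a = b := by decide
  exact h1 _ _ h

theorem ded {ι κ : Type} (A : F2 ι × F3 κ →₀ ℤ)
    (h : ∀ χ : Ch ι κ,
      Finsupp.linearCombination ℤ (fun x => vl (χ.1 x.1, χ.2 x.2)) A = 0) : A = 0 := by
  let ev : F2 ι × F3 κ → (Ch ι κ →* ℂ) := fun x =>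
    { toFun := fun χ => vl (χ.1 x.1, χ.2 x.2)
      map_one' := by
        show vl (1, 1) = 1
        exact map_one vl
      map_mul' := by
        intro a b
        show vl (a.1 x.1 * b.1 x.1, a.2 x.2 * b.2 x.2) = _
        rw [← map_mul]
        rfl }
  have hinj : Function.Injective ev := by
    intro x y hxy
    have h1 : ∀ χ : F2 ι →* ℤˣ, χ x.1 = χ y.1 := by
      intro χ
      have h2 := DFunLike.congr_fun hxy (χ, 1)
      have h3 : (((χ x.1 : ℤˣ) : ℤ) : ℂ) * om3 1 = (((χ y.1 : ℤˣ) : ℤ) : ℂ) * om3 1 := h2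
      rw [map_one, mul_one, mul_one] at h3
      exact Units.ext (Int.cast_injective h3)
    have h2 : ∀ χ : F3 κ →* C3, χ x.2 = χ y.2 := by
      intro χ
      have h2 := DFunLike.congr_fun hxy (1, χ)
      have h3 : (((1 : ℤˣ) : ℤ) : ℂ) * om3 (χ x.2) = (((1 : ℤˣ) : ℤ) : ℂ) * om3 (χ y.2) := h2
      simp only [Units.val_one, Int.cast_one, one_mul] at h3
      exact om3_inj h3
    refine Prod.ext ?_ ?_
    · have : Multiplicative.toAdd x.1 = Multiplicative.toAdd y.1 := by
        ext i
        let χ : F2 ι →* ℤˣ := sg.comp (AddMonoidHom.toMultiplicative (Finsupp.applyAddHom i))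
        exact sg_inj (h1 χ)
      exact this
    · have : Multiplicative.toAdd x.2 = Multiplicative.toAdd y.2 := by
        ext i
        let χ : F3 κ →* C3 := AddMonoidHom.toMultiplicative (Finsupp.applyAddHom i)
        exact h2 χ
      exact this
  have hli := (linearIndependent_monoidHom (Ch ι κ) ℂ).comp ev hinj
  have hA : A.mapRange (Int.cast : ℤ → ℂ) Int.cast_zero = 0 := by
    refine (linearIndependent_iff.mp hli) _ ?_
    funext χ
    have := h χ
    rw [Finsupp.linearCombination_apply] at this ⊢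
    rw [Finsupp.sum_mapRange_index (by intro i; simp)]
    rw [Finsupp.sum] at this ⊢
    rw [Finset.sum_apply]
    simpa [ev] using this
  ext x
  have := DFunLike.congr_fun hA x
  simpa using this

/-- homomorphism from the free elementary abelian `2`-group -/
theorem lift2 {ι B : Type} [CommGroup B] (hB : ∀ b : B, b * b = 1) (v : ι → B) :
    ∃ L : F2 ι →* B, ∀ i, L (Multiplicative.ofAdd (Finsupp.single i 1)) = v i := by
  have h2 : ∀ b : Additive B, (2 : ℤ) • b = 0 := by
    intro b
    rw [two_zsmul]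
    exact hB (Additive.toMul b)
  refine ⟨AddMonoidHom.toMultiplicativeLeft (Finsupp.liftAddHom fun i : ι =>
    ZMod.lift 2 ⟨zmultiplesHom (Additive B) (Additive.ofMul (v i)), ?_⟩), ?_⟩
  · have := h2 (Additive.ofMul (v i))
    simpa using this
  · intro i
    have : (Finsupp.liftAddHom fun i : ι =>
      ZMod.lift 2 ⟨zmultiplesHom (Additive B) (Additive.ofMul (v i)), by
        have := h2 (Additive.ofMul (v i))
        simpa using this⟩)
        (Finsupp.single i 1) = Additive.ofMul (v i) := by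
      rw [Finsupp.liftAddHom_apply_single]
      have h1 : ((1 : ℤ) : ZMod 2) = 1 := by simp
      rw [← h1, ZMod.lift_coe]
      simp
    exact congrArg Additive.toMul this

/-- homomorphism from the free elementary abelian `3`-group -/
theorem lift3 {ι B : Type} [CommGroup B] (hB : ∀ b : B, b ^ 3 = 1) (v : ι → B) :
    ∃ L : F3 ι →* B, ∀ i, L (Multiplicative.ofAdd (Finsupp.single i 1)) = v i := by
  have h2 : ∀ b : Additive B, (3 : ℤ) • b = 0 := by
    intro b
    have h3 : (3 : ℕ) • b = 0 := hB (Additive.toMul b)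
    exact_mod_cast h3
  refine ⟨AddMonoidHom.toMultiplicativeLeft (Finsupp.liftAddHom fun i : ι =>
    ZMod.lift 3 ⟨zmultiplesHom (Additive B) (Additive.ofMul (v i)), ?_⟩), ?_⟩
  · have := h2 (Additive.ofMul (v i))
    simpa using this
  · intro i
    have : (Finsupp.liftAddHom fun i : ι =>
      ZMod.lift 3 ⟨zmultiplesHom (Additive B) (Additive.ofMul (v i)), by
        have := h2 (Additive.ofMul (v i))
        simpa using this⟩)
        (Finsupp.single i 1) = Additive.ofMul (v i) := by
      rw [Finsupp.liftAddHom_apply_single]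
      have h1 : ((1 : ℤ) : ZMod 3) = 1 := by simp
      rw [← h1, ZMod.lift_coe]
      simp
    exact congrArg Additive.toMul this

theorem RP_of_RG (Y : UZ2 ℤ X) (hY : RG Y) : RP K Y := by
  intro B _ hB C _ hC Ψ a f
  obtain ⟨L, hL⟩ := lift2 hB fun i : X × ZMod 2 => (Ψ (FreeGroup.of i.1)).1.b i.2
  obtain ⟨L', hL'⟩ := lift3 hC fun i : X => (Ψ (FreeGroup.of i)).2
  let U : FreeGroup X →* Wr (F2 (X × ZMod 2)) × F3 X :=
    FreeGroup.lift fun x => (⟨fun m => Multiplicative.ofAdd (Finsupp.single (x, m) 1),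
      (Ψ (FreeGroup.of x)).1.s⟩, Multiplicative.ofAdd (Finsupp.single x 1))
  have hU : (MonoidHom.prodMap (Wr.map L) L').comp U = Ψ := by
    apply FreeGroup.ext_hom
    intro x
    refine Prod.ext ?_ ?_
    · refine Wr.ext (funext fun m => ?_) ?_
      · simp [Wr.map, U, hL]
      · simp [Wr.map, U]
    · simp [U, hL']
  let F : ((FreeGroup X × X) × (FreeGroup X × X)) → (F2 (X × ZMod 2) × F3 X →₀ ℤ) :=
    fun p => Finsupp.single ((U p.1.1).1.b 0 * (U p.2.1).1.b 0, (U p.1.1).2 * (U p.2.1).2)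
      (Om (a p.1.2 (U p.1.1).1.s) (a p.2.2 (U p.2.1).1.s))
  have hF : ∀ {M : Type} [AddCommGroup M] (g : F2 (X × ZMod 2) × F3 X → M),
      Finsupp.linearCombination ℤ g (Finsupp.linearCombination ℤ F Y) =
        Finsupp.linearCombination ℤ (kr U a g) Y := by
    intro M _ g
    rw [Finsupp.apply_linearCombination]
    congr 2
    funext p
    simp only [F, kr, Function.comp_apply, Finsupp.linearCombination_single]
  have hA : Finsupp.linearCombination ℤ F Y = 0 := by
    refine ded _ fun χ => ?_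
    have h5 : Finsupp.linearCombination ℤ (kr U a (fun x => vl (χ.1 x.1, χ.2 x.2))) Y = 0 := by
      have h6 := hY ((MonoidHom.prodMap (Wr.map χ.1) χ.2).comp U) a
      have h7 : kr ((MonoidHom.prodMap (Wr.map χ.1) χ.2).comp U) a (fun x => vl x) =
          kr U a (fun x => vl (χ.1 x.1, χ.2 x.2)) := by
        funext p
        simp [kr, Wr.map]
      rw [h7] at h6
      exact h6
    exact (hF (M := ℂ) _).trans h5
  have h0 := hF (fun x => f (L x.1, L' x.2))
  rw [hA, map_zero] at h0
  rw [h0]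
  congr 2
  funext p
  simp only [kr, ← hU, MonoidHom.comp_apply, Wr.map, MonoidHom.coe_mk, OneHom.coe_mk, map_mul,
    MonoidHom.prodMap, MonoidHom.prod_apply, MonoidHom.coe_fst, MonoidHom.coe_snd]

end Pool.Agent.H74R2.TF
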