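import Pool.Agent.H74R2.TF.Wrd

set_option autoImplicit false

open scoped Classical commutatorElement

namespace Pool.Agent.H74R2.TF

open Pool.Agent.FBZ

/-! ### the finite top group has class at most two -/

theorem wr_comm_b (x y : Wr ℤˣ) : ⁅x, y⁆.s = 0 ∧ ⁅x, y⁆.b 0 = ⁅x, y⁆.b 1 := by
  obtain ⟨b, s⟩ := x
  obtain ⟨b', s'⟩ := y
  rw [commutatorElement_def]
  simp only [Wr.mul_s, Wr.inv_s, Wr.mul_b, Wr.inv_b]
  generalize h0 : b 0 = u
  generalize h1 : b 1 = v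
  generalize h0' : b' 0 = u'
  generalize h1' : b' 1 = v'
  have key : ∀ s s' : ZMod 2, s + s' + s + s' = 0 := by decide
  refine ⟨key s s', ?_⟩
  have hb : b = fun m => if m = 0 then u else v := by
    funext m
    have : ∀ m : ZMod 2, m = 0 ∨ m = 1 := by decide
    rcases this m with rfl | rfl
    · simp [h0]
    · simp [h1]
  have hb' : b' = fun m => if m = 0 then u' else v' := by
    funext m
    have : ∀ m : ZMod 2, m = 0 ∨ m = 1 := by decide
    rcases this m with rfl | rfl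
    · simp [h0']
    · simp [h1']
  rw [hb, hb']
  clear hb hb' h0 h1 h0' h1'
  revert s s' u v u' v'
  decide

theorem wr_central (z : Wr ℤˣ) (hs : z.s = 0) (hb : z.b 0 = z.b 1) (x : Wr ℤˣ) :
    z * x = x * z := by
  have hc : ∀ m : ZMod 2, z.b m = z.b 0 := by
    intro m
    have : ∀ m : ZMod 2, m = 0 ∨ m = 1 := by decide
    rcases this m with rfl | rfl
    · rfl
    · exact hb.symm
  refine Wr.ext (funext fun m => ?_) ?_
  · rw [Wr.mul_b, Wr.mul_b, hs, add_zero, hc m, hc (m + x.s), mul_comm]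
  · rw [Wr.mul_s, Wr.mul_s, add_comm]

/-- the finite top group -/
abbrev Tp : Type := TT × PP

theorem tp_class : (⊤ : Subgroup Tp).lowerCentralSeries 2 = ⊥ := by
  rw [Subgroup.lowerCentralSeries_succ, Subgroup.commutator_eq_bot_iff_le_centralizer,
    Subgroup.lowerCentralSeries_succ, Subgroup.commutator_le]
  rintro ⟨⟨x, c⟩, p⟩ _ ⟨⟨y, c'⟩, p'⟩ _
  rw [Subgroup.mem_centralizer_iff]
  rintro ⟨⟨z, c''⟩, p''⟩ _
  obtain ⟨h1, h2⟩ := wr_comm_b x y
  refine Prod.ext (Prod.ext ?_ (mul_comm _ _)) (mul_comm _ _)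
  exact (wr_central _ h1 h2 z).symm

/-! ### the kernel of the map to the top group -/

/-- projection to the top group -/
noncomputable def prT : GG →* Tp :=
  (MonoidHom.prodMap (Con.proj gdat) (MonoidHom.id PP)).comp
    (Con.proj (sdat (fdat (P := PP) (Con.rep gdat))))

theorem prT_apply (x : GG) : prT x = (x.q.1.q, x.q.2) := rfl

theorem mem_ker {x : GG} : x ∈ prT.ker ↔ x.q.1.q = 1 ∧ x.q.2 = 1 := by
  rw [MonoidHom.mem_ker, prT_apply]
  exact Prod.ext_iff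

theorem GG.ext' {x y : GG} (hq : x.q.1.q = y.q.1.q) (hp : x.q.2 = y.q.2) (ha : x.q.1.a = y.q.1.a)
    (hc : x.q.1.c = y.q.1.c) (h : ∀ p, x.a p = y.a p) : x = y :=
  FBZ.Con.ext (funext h) (Subsingleton.elim _ _) (Prod.ext (FBZ.Con.ext ha hc hq) hp)

theorem mul_comp (x y : GG) (hx : x ∈ prT.ker) :
    (x * y).q.1.a = x.q.1.a + y.q.1.a ∧
    (x * y).q.1.c = x.q.1.c + y.q.1.c + gdat.om x.q.1.a y.q.1.a ∧
    ∀ p, (x * y).a p = ((x.a p).1 + (y.a p).1,
      (x.a p).2.1 + ((y.a p).1 • x.q.1.a + (y.a p).2.1),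
      (x.a p).2.2 + ((y.a p).1 • x.q.1.c + (y.a p).2.2 + gdat.om x.q.1.a (y.a p).2.1)) := by
  obtain ⟨h1, h2⟩ := mem_ker.mp hx
  refine ⟨?_, ?_, ?_⟩
  · rw [Con.mul_q, Prod.fst_mul, Con.mul_a, h1, map_one, Module.End.one_apply]
  · rw [Con.mul_q, Prod.fst_mul, Con.mul_c, h1, map_one, map_one, Module.End.one_apply,
      Module.End.one_apply]
  · intro p
    rw [Con.mul_a]
    show x.a p + fdat (Con.rep gdat) x.q y.a p = _
    rw [fdat_apply, Con.rep_apply, h1, h2, map_one, map_one, inv_one, one_mul]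
    rfl

theorem ker_q {x y : GG} (hx : x ∈ prT.ker) (hy : y ∈ prT.ker) :
    x.q.1.q = y.q.1.q ∧ x.q.2 = y.q.2 := by
  obtain ⟨h1, h2⟩ := mem_ker.mp hx
  obtain ⟨h3, h4⟩ := mem_ker.mp hy
  exact ⟨by rw [h1, h3], by rw [h2, h4]⟩

/-- second term -/
def N1 : Subgroup GG where
  carrier := {x | x ∈ prT.ker ∧ x.q.1.a = 0 ∧ ∀ p, (x.a p).1 = 0}
  one_mem' := ⟨Subgroup.one_mem _, rfl, fun p => rfl⟩
  mul_mem' := by
    rintro x y ⟨hx, hx1, hx2⟩ ⟨hy, hy1, hy2⟩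
    obtain ⟨h1, h2, h3⟩ := mul_comp x y hx
    refine ⟨Subgroup.mul_mem _ hx hy, ?_, fun p => ?_⟩
    · rw [h1, hx1, hy1, add_zero]
    · rw [h3, hx2, hy2, add_zero]
  inv_mem' := by
    rintro x ⟨hx, hx1, hx2⟩
    have hx' := Subgroup.inv_mem _ hx
    obtain ⟨h1, h2, h3⟩ := mul_comp x⁻¹ x hx'
    rw [inv_mul_cancel] at h1 h2 h3
    refine ⟨hx', ?_, fun p => ?_⟩
    · rw [hx1, add_zero] at h1
      exact h1.symm
    · have h4 := congrArg Prod.fst (h3 p)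
      have h5 : (0 : ℤ) = (x⁻¹.a p).1 + (x.a p).1 := h4
      rw [hx2, add_zero] at h5
      exact h5.symm

/-- third term -/
def N2 : Subgroup GG where
  carrier := {x | x ∈ prT.ker ∧ x.q.1.a = 0 ∧ x.q.1.c = 0 ∧ ∀ p, (x.a p).1 = 0 ∧ (x.a p).2.1 = 0}
  one_mem' := ⟨Subgroup.one_mem _, rfl, rfl, fun p => ⟨rfl, rfl⟩⟩
  mul_mem' := by
    rintro x y ⟨hx, hx1, hx2, hx3⟩ ⟨hy, hy1, hy2, hy3⟩
    obtain ⟨h1, h2, h3⟩ := mul_comp x y hx
    refine ⟨Subgroup.mul_mem _ hx hy, ?_, ?_, fun p => ?_⟩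
    · rw [h1, hx1, hy1, add_zero]
    · rw [h2, hx1, hx2, hy2, map_zero, LinearMap.zero_apply, add_zero, add_zero]
    · rw [h3, (hx3 p).1, (hx3 p).2, (hy3 p).1, (hy3 p).2, hx1]
      simp
  inv_mem' := by
    rintro x ⟨hx, hx1, hx2, hx3⟩
    have hx' := Subgroup.inv_mem _ hx
    obtain ⟨h1, h2, h3⟩ := mul_comp x⁻¹ x hx'
    rw [inv_mul_cancel] at h1 h2 h3
    rw [hx1, add_zero] at h1
    rw [← h1, hx2, Con.one_q, Prod.fst_one, Con.one_c, Con.one_a, map_zero, LinearMap.zero_apply,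
      add_zero, add_zero] at h2
    refine ⟨hx', h1.symm, h2.symm, fun p => ?_⟩
    have h4 : (0 : ℤ) = (x⁻¹.a p).1 + (x.a p).1 := congrArg Prod.fst (h3 p)
    have h5 : (0 : ZMod 2 → ℂ × ℂ) = (x⁻¹.a p).2.1 + ((x.a p).1 • x⁻¹.q.1.a + (x.a p).2.1) :=
      congrArg (fun v : ℤ × (ZMod 2 → ℂ × ℂ) × (ZMod 2 → ℂ) => v.2.1) (h3 p)
    rw [(hx3 p).1, add_zero] at h4
    rw [(hx3 p).1, (hx3 p).2, zero_smul, add_zero, add_zero] at h5
    exact ⟨h4.symm, h5.symm⟩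

theorem comm_N1 : ⁅prT.ker, prT.ker⁆ ≤ N1 := by
  rw [Subgroup.commutator_le]
  intro x hx y hy
  obtain ⟨h1, h2, h3⟩ := mul_comp x y hx
  obtain ⟨h1', h2', h3'⟩ := mul_comp y x hy
  have hu := Subgroup.mul_mem _ hx hy
  have hv := Subgroup.mul_mem _ hy hx
  have hw : ∃ w ∈ N1, w * (y * x) = x * y := by
    refine ⟨⟨fun p => (0, ((x * y).a p).2.1 - ((y * x).a p).2.1,
      ((x * y).a p).2.2 - ((y * x).a p).2.2 - ((y * x).a p).1 • ((x * y).q.1.c - (y * x).q.1.c)),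
      (), (⟨0, (x * y).q.1.c - (y * x).q.1.c, 1⟩, 1)⟩, ⟨mem_ker.mpr ⟨rfl, rfl⟩, rfl, fun p => rfl⟩,
      ?_⟩
    set w : GG := ⟨fun p => (0, ((x * y).a p).2.1 - ((y * x).a p).2.1,
      ((x * y).a p).2.2 - ((y * x).a p).2.2 - ((y * x).a p).1 • ((x * y).q.1.c - (y * x).q.1.c)),
      (), (⟨0, (x * y).q.1.c - (y * x).q.1.c, 1⟩, 1)⟩ with hw
    have hwk : w ∈ prT.ker := mem_ker.mpr ⟨rfl, rfl⟩
    obtain ⟨k1, k2, k3⟩ := mul_comp w (y * x) hwk
    obtain ⟨l1, l2⟩ := ker_q (Subgroup.mul_mem _ hwk hv) hu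
    refine GG.ext' l1 l2 ?_ ?_ ?_
    · rw [k1]
      show 0 + (y * x).q.1.a = _
      rw [h1, h1', zero_add, add_comm]
    · rw [k2]
      show ((x * y).q.1.c - (y * x).q.1.c) + (y * x).q.1.c + gdat.om 0 (y * x).q.1.a = _
      rw [map_zero, LinearMap.zero_apply]
      abel
    · intro p
      rw [k3 p]
      refine Prod.ext ?_ (Prod.ext ?_ ?_)
      · show 0 + ((y * x).a p).1 = ((x * y).a p).1
        rw [h3, h3', zero_add, add_comm]
      · show ((x * y).a p).2.1 - ((y * x).a p).2.1 +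
          (((y * x).a p).1 • (0 : ZMod 2 → ℂ × ℂ) + ((y * x).a p).2.1) = ((x * y).a p).2.1
        rw [smul_zero]
        abel
      · show ((x * y).a p).2.2 - ((y * x).a p).2.2 -
            ((y * x).a p).1 • ((x * y).q.1.c - (y * x).q.1.c) +
          (((y * x).a p).1 • ((x * y).q.1.c - (y * x).q.1.c) + ((y * x).a p).2.2 +
            gdat.om 0 ((y * x).a p).2.1) = ((x * y).a p).2.2
        rw [map_zero, LinearMap.zero_apply]
        abel
  obtain ⟨w, hw, hw'⟩ := hw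
  have : ⁅x, y⁆ = w := by
    rw [commutatorElement_def]
    have h5 : x * y * x⁻¹ * y⁻¹ = x * y * (y * x)⁻¹ := by group
    rw [h5, ← hw']
    group
  rw [this]
  exact hw

theorem comm_N2 : ⁅N1, prT.ker⁆ ≤ N2 := by
  rw [Subgroup.commutator_le]
  rintro x ⟨hx, hxa, hxr⟩ y hy
  obtain ⟨h1, h2, h3⟩ := mul_comp x y hx
  obtain ⟨h1', h2', h3'⟩ := mul_comp y x hy
  have hu := Subgroup.mul_mem _ hx hy
  have hv := Subgroup.mul_mem _ hy hx
  rw [hxa, zero_add] at h1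
  rw [hxa, add_zero] at h1'
  rw [hxa, map_zero, LinearMap.zero_apply, add_zero] at h2
  rw [hxa, map_zero, add_zero] at h2'
  have hw : ∃ w ∈ N2, w * (y * x) = x * y := by
    set w : GG := ⟨fun p => (0, 0, ((x * y).a p).2.2 - ((y * x).a p).2.2), (), 1⟩ with hw
    have hwk : w ∈ prT.ker := mem_ker.mpr ⟨rfl, rfl⟩
    refine ⟨w, ⟨hwk, rfl, rfl, fun p => ⟨rfl, rfl⟩⟩, ?_⟩
    obtain ⟨k1, k2, k3⟩ := mul_comp w (y * x) hwk
    obtain ⟨l1, l2⟩ := ker_q (Subgroup.mul_mem _ hwk hv) hu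
    refine GG.ext' l1 l2 ?_ ?_ ?_
    · rw [k1]
      show 0 + (y * x).q.1.a = _
      rw [h1, h1', zero_add]
    · rw [k2]
      show 0 + (y * x).q.1.c + gdat.om 0 (y * x).q.1.a = _
      rw [map_zero, LinearMap.zero_apply, h2, h2']
      abel
    · intro p
      rw [k3 p]
      refine Prod.ext ?_ (Prod.ext ?_ ?_)
      · show 0 + ((y * x).a p).1 = ((x * y).a p).1
        rw [h3, h3', zero_add, add_comm]
      · show (0 : ZMod 2 → ℂ × ℂ) +
          (((y * x).a p).1 • (0 : ZMod 2 → ℂ × ℂ) + ((y * x).a p).2.1) = ((x * y).a p).2.1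
        rw [smul_zero, h3, h3', hxa, hxr]
        simp only [smul_zero, zero_smul, zero_add]
        abel
      · show ((x * y).a p).2.2 - ((y * x).a p).2.2 +
          (((y * x).a p).1 • (0 : ZMod 2 → ℂ) + ((y * x).a p).2.2 +
            gdat.om 0 ((y * x).a p).2.1) = ((x * y).a p).2.2
        rw [map_zero, LinearMap.zero_apply, smul_zero]
        abel
  obtain ⟨w, hw, hw'⟩ := hw
  have : ⁅x, y⁆ = w := by
    rw [commutatorElement_def]
    have h5 : x * y * x⁻¹ * y⁻¹ = x * y * (y * x)⁻¹ := by group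
    rw [h5, ← hw']
    group
  rw [this]
  exact hw

theorem comm_N3 : ⁅N2, prT.ker⁆ = ⊥ := by
  rw [eq_bot_iff, Subgroup.commutator_le]
  rintro x ⟨hx, hxa, hxc, hxr⟩ y hy
  obtain ⟨h1, h2, h3⟩ := mul_comp x y hx
  obtain ⟨h1', h2', h3'⟩ := mul_comp y x hy
  rw [Subgroup.mem_bot, commutatorElement_eq_one_iff_mul_comm]
  obtain ⟨l1, l2⟩ := ker_q (Subgroup.mul_mem _ hx hy) (Subgroup.mul_mem _ hy hx)
  refine GG.ext' l1 l2 ?_ ?_ ?_
  · rw [h1, h1', add_comm]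
  · rw [h2, h2', hxa, hxc, map_zero, LinearMap.zero_apply, map_zero, add_comm 0]
  · intro p
    rw [h3, h3', hxa, hxc, (hxr p).1, (hxr p).2]
    refine Prod.ext ?_ (Prod.ext ?_ ?_)
    · simp
    · simp
    · simp [add_comm]

theorem ker_class : prT.ker.lowerCentralSeries 3 = ⊥ := by
  rw [Subgroup.lowerCentralSeries_succ, Subgroup.lowerCentralSeries_succ,
    Subgroup.lowerCentralSeries_succ, Subgroup.lowerCentralSeries_zero, eq_bot_iff, ← comm_N3]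
  refine Subgroup.commutator_mono ?_ le_rfl
  refine le_trans (Subgroup.commutator_mono comm_N1 le_rfl) comm_N2

/-! ### the kernel is torsion-free -/

theorem tf_smul {V : Type} [AddCommGroup V] [Module ℂ V] (m : ℕ) (hm : m ≠ 0) (v : V)
    (h : m • v = 0) : v = 0 := by
  have h1 : ((m : ℂ)) • v = 0 := by rw [Nat.cast_smul_eq_nsmul]; exact h
  have h2 : (m : ℂ) ≠ 0 := Nat.cast_ne_zero.mpr hm
  exact (smul_eq_zero.mp h1).resolve_left h2

theorem ker_tf (x : GG) (hx : x ∈ prT.ker) (m : ℕ) (hm : m ≠ 0) (h : x ^ m = 1) : x = 1 := by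
  have hp : ∀ k : ℕ, x ^ k ∈ prT.ker := fun k => Subgroup.pow_mem _ hx k
  have ha : ∀ k : ℕ, (x ^ k).q.1.a = k • x.q.1.a := by
    intro k
    induction k with
    | zero => rw [pow_zero, zero_smul]; rfl
    | succ k ih => rw [pow_succ, (mul_comp _ x (hp k)).1, ih, succ_nsmul]
  have ha0 : x.q.1.a = 0 := by
    refine tf_smul m hm _ ?_
    rw [← ha, h]; rfl
  have ha1 : ∀ k : ℕ, (x ^ k).q.1.a = 0 := by intro k; rw [ha, ha0, smul_zero]
  have hc : ∀ k : ℕ, (x ^ k).q.1.c = k • x.q.1.c := by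
    intro k
    induction k with
    | zero => rw [pow_zero, zero_smul]; rfl
    | succ k ih => rw [pow_succ, (mul_comp _ x (hp k)).2.1, ih, succ_nsmul, ha0, map_zero, add_zero]
  have hc0 : x.q.1.c = 0 := by
    refine tf_smul m hm _ ?_
    rw [← hc, h]; rfl
  have hc1 : ∀ k : ℕ, (x ^ k).q.1.c = 0 := by intro k; rw [hc, hc0, smul_zero]
  have hf : ∀ k : ℕ, ∀ p, (x ^ k).a p = k • x.a p := by
    intro k p
    induction k with
    | zero => rw [pow_zero, zero_smul]; rfl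
    | succ k ih =>
      rw [pow_succ, (mul_comp _ x (hp k)).2.2, ha1, hc1, succ_nsmul, smul_zero, smul_zero,
        map_zero, LinearMap.zero_apply, zero_add, zero_add, add_zero, ih]
      rfl
  have hf0 : ∀ p, x.a p = 0 := by
    intro p
    have h1 := hf m p
    rw [h] at h1
    have h2 : m • (x.a p).1 = 0 := congrArg Prod.fst h1.symm
    have h3 : m • (x.a p).2.1 = 0 :=
      congrArg (fun v : ℤ × (ZMod 2 → ℂ × ℂ) × (ZMod 2 → ℂ) => v.2.1) h1.symm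
    have h4 : m • (x.a p).2.2 = 0 :=
      congrArg (fun v : ℤ × (ZMod 2 → ℂ × ℂ) × (ZMod 2 → ℂ) => v.2.2) h1.symm
    refine Prod.ext ?_ (Prod.ext (tf_smul m hm _ h3) (tf_smul m hm _ h4))
    have h5 : (m : ℤ) * (x.a p).1 = 0 := by rw [← nsmul_eq_mul]; exact h2
    exact (mul_eq_zero.mp h5).resolve_left (by exact_mod_cast hm)
  obtain ⟨h1, h2⟩ := mem_ker.mp hx
  refine GG.ext' h1 h2 ha0 hc0 hf0

end Pool.Agent.H74R2.TF
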