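import Pool.Agent.H74R2.TF.Str
import Pool.Agent.H74R2.TF.Fai

set_option autoImplicit false

universe u

open scoped Classical commutatorElement

namespace Pool.Agent.H74R2.TF

open Pool.Agent.FBZ

/-- every word of `W` is a law of `G` -/
def Sat (G : Type u) [Group G] (W : Set (FreeGroup ℕ)) : Prop :=
  ∀ w ∈ W, ∀ f : FreeGroup ℕ →* G, f w = 1

/-- the verbal subgroup of `G` given by `W` -/
def verb (W : Set (FreeGroup ℕ)) (G : Type u) [Group G] : Subgroup G :=
  Subgroup.normalClosure {g | ∃ w ∈ W, ∃ f : FreeGroup ℕ →* G, f w = g}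

instance (W : Set (FreeGroup ℕ)) (G : Type u) [Group G] : (verb W G).Normal :=
  Subgroup.normalClosure_normal

theorem verb_map {W : Set (FreeGroup ℕ)} {G : Type*} [Group G] {G' : Type*} [Group G']
    (j : G →* G') {x : G} (hx : x ∈ verb W G) : j x ∈ verb W G' := by
  have : verb W G ≤ (verb W G').comap j := by
    apply Subgroup.normalClosure_le_normal
    rintro _ ⟨w, hw, f, rfl⟩
    exact Subgroup.subset_normalClosure ⟨w, hw, j.comp f, rfl⟩
  exact this hx

/-- every element of a free group involves finitely many letters -/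
theorem lettersX {X : Type u} (g : FreeGroup X) : ∃ s : Finset X, ∀ (H : Type u) [Group H]
    (ψ ψ' : FreeGroup X →* H), (∀ x ∈ s, ψ (FreeGroup.of x) = ψ' (FreeGroup.of x)) → ψ g = ψ' g := by
  induction g using FreeGroup.induction_on with
  | C1 => exact ⟨∅, fun H _ ψ ψ' _ => by simp⟩
  | of x => exact ⟨{x}, fun H _ ψ ψ' h => h x (Finset.mem_singleton_self x)⟩
  | inv_of x hx =>
    obtain ⟨s, hs⟩ := hx
    exact ⟨s, fun H _ ψ ψ' h => by rw [map_inv, map_inv, hs H ψ ψ' h]⟩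
  | mul x y hx hy =>
    obtain ⟨s, hs⟩ := hx
    obtain ⟨t, ht⟩ := hy
    refine ⟨s ∪ t, fun H _ ψ ψ' h => ?_⟩
    rw [map_mul, map_mul, hs H ψ ψ' fun i hi => h i (Finset.mem_union_left _ hi),
      ht H ψ ψ' fun i hi => h i (Finset.mem_union_right _ hi)]

/-- a retraction onto finitely many letters -/
theorem retr {X : Type u} (g : FreeGroup X) :
    ∃ (j : FreeGroup X →* FreeGroup ℕ) (k : FreeGroup ℕ →* FreeGroup X), k (j g) = g := by
  obtain ⟨s, hs⟩ := lettersX g
  let e := s.equivFin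
  let j : FreeGroup X →* FreeGroup ℕ := FreeGroup.lift fun x =>
    if h : x ∈ s then FreeGroup.of ((e ⟨x, h⟩ : Fin s.card) : ℕ) else 1
  let k : FreeGroup ℕ →* FreeGroup X := FreeGroup.lift fun i =>
    if h : i < s.card then FreeGroup.of ((e.symm ⟨i, h⟩ : s) : X) else 1
  refine ⟨j, k, ?_⟩
  refine hs (FreeGroup X) (k.comp j) (MonoidHom.id _) fun x hx => ?_
  simp [hx, j, k]

/-- commutator subgroups of subgroups of a free group are isolated -/
theorem iso_comm (H : Subgroup (FreeGroup ℕ)) (w : FreeGroup ℕ) (hw : w ∈ H) (m : ℕ)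
    (hm : m ≠ 0) (h : w ^ m ∈ ⁅H, H⁆) : w ∈ ⁅H, H⁆ := by
  have hker : ∀ x : H, (x : FreeGroup ℕ) ∈ ⁅H, H⁆ ↔ Abelianization.of x = 1 := by
    intro x
    rw [← MonoidHom.mem_ker, Abelianization.ker_of, ← Subgroup.map_subtype_commutator]
    constructor
    · rintro ⟨y, hy, hyx⟩
      have : y = x := Subtype.ext hyx
      rw [← this]
      exact hy
    · intro hx
      exact ⟨x, hx, rfl⟩
  obtain ⟨ι, ⟨bs⟩⟩ := (inferInstance : IsFreeGroup H).nonempty_basis
  have e := bs.repr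
  let e' : Abelianization H ≃* Abelianization (FreeGroup ι) := e.abelianizationCongr
  have htf : ∀ y : Abelianization H, y ^ m = 1 → y = 1 := by
    intro y hy
    have h1 : (e' y) ^ m = 1 := by rw [← map_pow, hy, map_one]
    let z : FreeAbelianGroup ι := Additive.ofMul (e' y)
    have h2 : m • z = 0 := h1
    have h3 : m • (FreeAbelianGroup.equivFinsupp ι z) = 0 := by rw [← map_nsmul, h2, map_zero]
    have h4 : FreeAbelianGroup.equivFinsupp ι z = 0 := by
      ext i
      have h5 := DFunLike.congr_fun h3 i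
      rw [Finsupp.smul_apply, Finsupp.zero_apply, nsmul_eq_mul] at h5
      exact (mul_eq_zero.mp h5).resolve_left (by exact_mod_cast hm)
    have h6 : z = 0 := (map_eq_zero_iff _ (FreeAbelianGroup.equivFinsupp ι).injective).mp h4
    have h7 : e' y = 1 := h6
    exact (map_eq_one_iff _ e'.injective).mp h7
  have h8 : Abelianization.of ((⟨w, hw⟩ : H) ^ m) = 1 := (hker ((⟨w, hw⟩ : H) ^ m)).mp h
  rw [map_pow] at h8
  exact (hker ⟨w, hw⟩).mpr (htf _ h8)

/-- laws of the finite top group -/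
def RR : Subgroup (FreeGroup ℕ) where
  carrier := {w | ∀ f : FreeGroup ℕ →* Tp, f w = 1}
  one_mem' := fun f => map_one f
  mul_mem' := by
    intro x y hx hy f
    rw [map_mul, hx f, hy f, one_mul]
  inv_mem' := by
    intro x hx f
    rw [map_inv, hx f, inv_one]

theorem RR_map (φ : FreeGroup ℕ →* FreeGroup ℕ) : RR.map φ ≤ RR := by
  rintro _ ⟨w, hw, rfl⟩ f
  exact hw (f.comp φ)

instance : RR.Normal := ⟨fun w hw g f => by rw [map_mul, map_mul, hw f, map_inv]; group⟩

/-- `w ^ m ∈ [R, R]` implies `w ∈ [R, R]` -/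
theorem iso_RR (w : FreeGroup ℕ) (m : ℕ) (hm : m ≠ 0) (h : w ^ m ∈ ⁅RR, RR⁆) : w ∈ ⁅RR, RR⁆ := by
  have hw : w ∈ RR := by
    let H : Subgroup (FreeGroup ℕ) := RR ⊔ Subgroup.zpowers w
    have h1 : w ∈ ⁅H, H⁆ := iso_comm H w (Subgroup.mem_sup_right (Subgroup.mem_zpowers w)) m hm
      (Subgroup.commutator_mono le_sup_left le_sup_left h)
    have h2 : ⁅H, H⁆ ≤ RR := by
      rw [Subgroup.commutator_le]
      intro x hx y hy
      rw [Subgroup.mem_sup_of_normal_left] at hx hy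
      obtain ⟨a, ha, b, hb, rfl⟩ := hx
      obtain ⟨c, hc, d, hd, rfl⟩ := hy
      obtain ⟨i, rfl⟩ := Subgroup.mem_zpowers_iff.mp hb
      obtain ⟨k, rfl⟩ := Subgroup.mem_zpowers_iff.mp hd
      intro f
      rw [map_commutatorElement, map_mul, map_mul, ha f, hc f, one_mul, one_mul, map_zpow, map_zpow,
        commutatorElement_eq_one_iff_mul_comm]
      exact (Commute.refl (f w)).zpow_zpow i k
    exact h2 h1
  exact iso_comm RR w hw m hm h

/-- the laws defining the variety -/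
def WW0 : Subgroup (FreeGroup ℕ) where
  carrier := {w | (∀ f : FreeGroup ℕ →* GG, f w = 1) ∧ w ∈ ⁅RR, RR⁆}
  one_mem' := ⟨fun f => map_one f, Subgroup.one_mem _⟩
  mul_mem' := by
    rintro x y ⟨hx, hx'⟩ ⟨hy, hy'⟩
    exact ⟨fun f => by rw [map_mul, hx f, hy f, one_mul], Subgroup.mul_mem _ hx' hy'⟩
  inv_mem' := by
    rintro x ⟨hx, hx'⟩
    exact ⟨fun f => by rw [map_inv, hx f, inv_one], Subgroup.inv_mem _ hx'⟩

theorem WW0_map (φ : FreeGroup ℕ →* FreeGroup ℕ) {w : FreeGroup ℕ} (hw : w ∈ WW0) :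
    φ w ∈ WW0 := by
  refine ⟨fun f => hw.1 (f.comp φ), ?_⟩
  have h1 : φ w ∈ (⁅RR, RR⁆).map φ := ⟨w, hw.2, rfl⟩
  rw [Subgroup.map_commutator] at h1
  exact Subgroup.commutator_mono (RR_map φ) (RR_map φ) h1

instance : WW0.Normal := ⟨fun w hw g => by
  have := WW0_map (MulAut.conj g).toMonoidHom hw
  exact this⟩

theorem verb_WW0 : verb (WW0 : Set (FreeGroup ℕ)) (FreeGroup ℕ) = WW0 := by
  apply le_antisymm
  · apply Subgroup.normalClosure_le_normal
    rintro _ ⟨w, hw, f, rfl⟩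
    exact WW0_map f hw
  · intro w hw
    exact Subgroup.subset_normalClosure ⟨w, hw, MonoidHom.id _, rfl⟩

theorem WW0_iso (w : FreeGroup ℕ) (m : ℕ) (hm : m ≠ 0) (h : w ^ m ∈ WW0) : w ∈ WW0 := by
  have h1 := iso_RR w m hm h.2
  refine ⟨fun f => ?_, h1⟩
  have h2 : w ∈ RR := Subgroup.commutator_le_left RR RR h1
  have h3 : f w ∈ prT.ker := by
    rw [MonoidHom.mem_ker]
    exact h2 (prT.comp f)
  refine ker_tf (f w) h3 m hm ?_
  rw [← map_pow]
  exact h.1 f

/-- the relatively free groups are torsion-free -/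
theorem tf_all (X : Type u) (g : FreeGroup X ⧸ verb (WW0 : Set (FreeGroup ℕ)) (FreeGroup X))
    (m : ℕ) (hm : m ≠ 0) (h : g ^ m = 1) : g = 1 := by
  induction g using QuotientGroup.induction_on with
  | H u =>
    have h1 : u ^ m ∈ verb (WW0 : Set (FreeGroup ℕ)) (FreeGroup X) := by
      rw [← QuotientGroup.eq_one_iff]
      exact h
    obtain ⟨j, k, hjk⟩ := retr u
    have h2 := verb_map j h1
    rw [verb_WW0, map_pow] at h2
    have h3 := WW0_iso _ m hm h2
    rw [← verb_WW0] at h3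
    have h4 := verb_map k h3
    rw [hjk] at h4
    exact (QuotientGroup.eq_one_iff _).mpr h4

/-! ### metanilpotence -/

/-- the subgroup `γ₄(γ₃(F))` -/
def LL (F : Type u) [Group F] : Subgroup F :=
  ((⊤ : Subgroup F).lowerCentralSeries 2).lowerCentralSeries 3

theorem LL_map {F : Type*} [Group F] {F' : Type*} [Group F'] (f : F →* F') :
    (LL F).map f ≤ LL F' := by
  unfold LL
  rw [Subgroup.map_lowerCentralSeries, Subgroup.map_lowerCentralSeries]
  exact Subgroup.lowerCentralSeries_mono 3 (Subgroup.lowerCentralSeries_mono 2 le_top)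

theorem LL_map_surj {F : Type*} [Group F] {F' : Type*} [Group F'] (f : F →* F')
    (hf : Function.Surjective f) : (LL F).map f = LL F' := by
  unfold LL
  rw [Subgroup.map_lowerCentralSeries, Subgroup.map_lowerCentralSeries,
    Subgroup.map_top_of_surjective f hf]

theorem lcs_RR : (⊤ : Subgroup (FreeGroup ℕ)).lowerCentralSeries 2 ≤ RR := by
  intro w hw f
  have h1 : f w ∈ ((⊤ : Subgroup (FreeGroup ℕ)).lowerCentralSeries 2).map f := ⟨w, hw, rfl⟩
  rw [Subgroup.map_lowerCentralSeries] at h1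
  have h2 := Subgroup.lowerCentralSeries_mono 2 (le_top : _ ≤ (⊤ : Subgroup Tp)) h1
  have h3 : f w ∈ (⊤ : Subgroup Tp).lowerCentralSeries 2 := h2
  rw [tp_class] at h3
  exact h3

theorem LL_GG : LL GG = ⊥ := by
  have h1 : (⊤ : Subgroup GG).lowerCentralSeries 2 ≤ prT.ker := by
    intro x hx
    rw [MonoidHom.mem_ker]
    have h1 : prT x ∈ ((⊤ : Subgroup GG).lowerCentralSeries 2).map prT := ⟨x, hx, rfl⟩
    rw [Subgroup.map_lowerCentralSeries] at h1
    have h2 := Subgroup.lowerCentralSeries_mono 2 (le_top : _ ≤ (⊤ : Subgroup Tp)) h1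
    have h3 : prT x ∈ (⊤ : Subgroup Tp).lowerCentralSeries 2 := h2
    rw [tp_class] at h3
    exact h3
  rw [eq_bot_iff, ← ker_class]
  exact Subgroup.lowerCentralSeries_mono 3 h1

theorem LL_WW0 : LL (FreeGroup ℕ) ≤ WW0 := by
  intro w hw
  constructor
  · intro f
    have h1 : f w ∈ (LL (FreeGroup ℕ)).map f := ⟨w, hw, rfl⟩
    have h2 := LL_map f h1
    rw [LL_GG] at h2
    exact h2
  · have h1 : LL (FreeGroup ℕ) ≤ ⁅RR, RR⁆ := by
      unfold LL
      rw [Subgroup.lowerCentralSeries_succ]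
      exact Subgroup.commutator_mono
        (le_trans (Subgroup.lowerCentralSeries_le_self _ _) lcs_RR) lcs_RR
    exact h1 hw

theorem sat_LL (G : Type u) [Group G] (hG : Sat G (WW0 : Set (FreeGroup ℕ))) : LL G = ⊥ := by
  let π : FreeGroup G →* G := FreeGroup.lift id
  have hπ : Function.Surjective π := fun g => ⟨FreeGroup.of g, by simp [π]⟩
  rw [← LL_map_surj π hπ, eq_bot_iff]
  rintro _ ⟨x, hx, rfl⟩
  obtain ⟨j, k, hjk⟩ := retr x
  have h1 : j x ∈ LL (FreeGroup ℕ) := LL_map j ⟨x, hx, rfl⟩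
  have h2 := hG _ (LL_WW0 h1) (π.comp k)
  rw [MonoidHom.comp_apply, hjk] at h2
  exact h2

/-! ### no finite basis -/

theorem vw_RR : vw ∈ RR := by
  intro f
  let g : Tp →* Con gdat × PP := MonoidHom.prodMap
    { toFun := fun q => ⟨0, 0, q⟩
      map_one' := rfl
      map_mul' := by
        intro x y
        refine FBZ.Con.ext ?_ ?_ rfl
        · simp
        · simp } (MonoidHom.id PP)
  have h1 := vw_q (g.comp f)
  have h2 : (((g.comp f) vw).1.q, ((g.comp f) vw).2) = (f vw) := rfl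
  rw [← h2, h1]
  rfl

theorem aw_RR : aw ∈ RR := by
  intro f
  let g : Tp →* Con gdat × PP := MonoidHom.prodMap
    { toFun := fun q => ⟨0, 0, q⟩
      map_one' := rfl
      map_mul' := by
        intro x y
        refine FBZ.Con.ext ?_ ?_ rfl
        · simp
        · simp } (MonoidHom.id PP)
  obtain ⟨h1, h3⟩ := aw_q (g.comp f)
  have h2 : (((g.comp f) aw).1.q, ((g.comp f) aw).2) = (f aw) := rfl
  rw [← h2, h1, h3]
  rfl

theorem cm_mem {H : Subgroup (FreeGroup ℕ)} {x y : FreeGroup ℕ} (hx : x ∈ H) (hy : y ∈ H) :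
    cm x y ∈ ⁅H, H⁆ := Subgroup.commutator_mem_commutator hx hy

theorem Lw_WW0 (n : ℕ) : Lw n ∈ WW0 := by
  refine ⟨Lw_law n, ?_⟩
  rw [Lw]
  refine cm_mem ?_ ?_
  · exact Subgroup.commutator_le_left RR RR (cm_mem vw_RR aw_RR)
  · exact (inferInstance : RR.Normal).conj_mem _ aw_RR _

/-- elements acting trivially -/
def trv {Q A : Type} [Group Q] [AddCommGroup A] (ρ : Q →* Module.End ℤ A) :
    Subgroup (Con (sdat ρ)) where
  carrier := {x | x.a = 0 ∧ ρ x.q = 1}
  one_mem' := ⟨rfl, map_one ρ⟩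
  mul_mem' := by
    rintro x y ⟨hx, hx'⟩ ⟨hy, hy'⟩
    refine ⟨?_, ?_⟩
    · rw [Con.mul_a, hx, hy, map_zero, add_zero]
    · rw [Con.mul_q, map_mul, hx', hy', one_mul]
  inv_mem' := by
    rintro x ⟨hx, hx'⟩
    refine ⟨?_, ?_⟩
    · rw [Con.inv_a, hx, map_zero, neg_zero]
    · have h : ρ x.q * ρ (x.q)⁻¹ = 1 := by rw [← map_mul, mul_inv_cancel, map_one]
      rw [hx', one_mul] at h
      exact h

instance trv_normal {Q A : Type} [Group Q] [AddCommGroup A] (ρ : Q →* Module.End ℤ A) :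
    (trv ρ).Normal := by
  refine ⟨?_⟩
  rintro x ⟨hx, hx'⟩ y
  have h1 : ρ (y.q * x.q * (y.q)⁻¹) = 1 := by
    rw [map_mul, map_mul, hx', mul_one, ← map_mul, mul_inv_cancel, map_one]
  refine ⟨?_, h1⟩
  have h2 : (sdat ρ).pe (y.q * x.q) ((sdat ρ).pe (y.q)⁻¹ y.a) = y.a := by
    rw [← Module.End.mul_apply, ← map_mul]
    show ρ (y.q * x.q * (y.q)⁻¹) y.a = y.a
    rw [h1, Module.End.one_apply]
  rw [Con.mul_a, Con.mul_a, Con.inv_a, hx, map_zero, add_zero, map_neg, Con.mul_q, h2,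
    add_neg_cancel]

/-- the field with four elements -/
theorem exists_K : ∃ (K : Type) (_ : Field K), (2 : K) = 0 ∧ (∀ c : Kˣ, c ^ 3 = 1) ∧
    ∃ t : Kˣ, t ≠ 1 := by
  have : Fact (Nat.Prime 2) := ⟨Nat.prime_two⟩
  refine ⟨GaloisField 2 2, inferInstance, ?_, ?_, ?_⟩
  · exact CharTwo.two_eq_zero
  · have : Fintype (GaloisField 2 2) := Fintype.ofFinite _
    have hc : Fintype.card (GaloisField 2 2) = 4 := by
      rw [← Nat.card_eq_fintype_card, GaloisField.card 2 2 (by norm_num)]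
      norm_num
    intro c
    have h1 := FiniteField.pow_card_sub_one_eq_one (c : GaloisField 2 2) c.ne_zero
    rw [hc] at h1
    exact Units.ext (by simpa using h1)
  · have : Fintype (GaloisField 2 2) := Fintype.ofFinite _
    have hc : Fintype.card (GaloisField 2 2) = 4 := by
      rw [← Nat.card_eq_fintype_card, GaloisField.card 2 2 (by norm_num)]
      norm_num
    have h2 : Fintype.card (GaloisField 2 2)ˣ = 3 := by
      rw [Fintype.card_units, hc]
    have : Nontrivial (GaloisField 2 2)ˣ := by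
      rw [← Fintype.one_lt_card_iff_nontrivial, h2]
      norm_num
    exact exists_ne 1

/-- the variety has no finite basis -/
theorem no_basis : ¬ ∃ S : Finset (FreeGroup ℕ), ∀ (G : Type) [Group G],
    Sat G (WW0 : Set (FreeGroup ℕ)) ↔ Sat G (S : Set (FreeGroup ℕ)) := by
  rintro ⟨S, hS⟩
  obtain ⟨K, _, h2, h3, t, ht⟩ := exists_K
  obtain ⟨N, hN⟩ := letters_fin S
  have hGG : Sat GG (S : Set (FreeGroup ℕ)) := (hS GG).mp fun w hw f => hw.1 f
  let M : Type := WG K (N + 1) ⧸ trv (fdat (P := PP) (tau K (N + 1)))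
  have hM : Sat M (S : Set (FreeGroup ℕ)) := by
    intro w hw f
    have hl : ∀ i : ℕ, ∃ g : WG K (N + 1), (QuotientGroup.mk g : M) = f (FreeGroup.of i) :=
      fun i => QuotientGroup.mk_surjective _
    choose g hg using hl
    have hfg : (QuotientGroup.mk' (trv (fdat (P := PP) (tau K (N + 1))))).comp (FreeGroup.lift g)
        = f := by
      apply FreeGroup.ext_hom
      intro i
      simp only [MonoidHom.comp_apply, FreeGroup.lift_apply_of]
      exact hg i
    have h1 := law_transfer (K := K) (n := N + 1) (P := PP) (Nat.lt_succ_self N) w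
      (fun f => hGG w hw f) (fun H _ ψ ψ' hψ => hN H ψ ψ' hψ w hw) (FreeGroup.lift g)
    rw [← hfg, MonoidHom.comp_apply]
    exact (QuotientGroup.eq_one_iff _).mpr h1
  have hM' : Sat M (WW0 : Set (FreeGroup ℕ)) := (hS M).mpr hM
  have h4 := hM' _ (Lw_WW0 (N + 1))
    ((QuotientGroup.mk' (trv (fdat (P := PP) (tau K (N + 1))))).comp (psi h2 h3 t (N + 1)))
  have h5 : psi h2 h3 t (N + 1) (Lw (N + 1)) ∈ trv (fdat (P := PP) (tau K (N + 1))) :=
    (QuotientGroup.eq_one_iff _).mp h4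
  exact Lw_fails h2 h3 t ht (N + 1) h5.1

end Pool.Agent.H74R2.TF
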