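import Pool.Agent.H74R2.TF.WWz

set_option autoImplicit false

open scoped Classical

namespace Pool.Agent.H74R2.TF

open Pool.Agent.FBZ

/-- commutator -/
def cm {G : Type} [Group G] (x y : G) : G := x * y * x⁻¹ * y⁻¹

theorem map_cm {G H : Type} [Group G] [Group H] (f : G →* H) (x y : G) :
    f (cm x y) = cm (f x) (f y) := by simp [cm]

theorem cm_eq_one {G : Type} [Group G] {x y : G} (h : x * y = y * x) : cm x y = 1 := by
  unfold cm; rw [h]; group

theorem cm_q {Q E Z : Type} [Group Q] [AddCommGroup E] [AddCommGroup Z] {D : Dat ℤ Q E Z}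
    (x y : Con D) : (cm x y).q = cm x.q y.q := rfl

theorem cm_a {Q E Z : Type} [Group Q] [AddCommGroup E] [AddCommGroup Z] {D : Dat ℤ Q E Z}
    (x y : Con D) (hx : x.a = 0) (hq : x.q * y.q = y.q * x.q) :
    (cm x y).a = D.pe x.q y.a - y.a := by
  have hq' : x.q * y.q * x.q⁻¹ * y.q⁻¹ = 1 := cm_eq_one hq
  simp only [cm, Con.mul_a, Con.mul_q, Con.inv_a, Con.inv_q, hx, map_zero, neg_zero, add_zero,
    zero_add, map_neg]
  rw [← Module.End.mul_apply, ← map_mul, hq', map_one, Module.End.one_apply]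
  abel

theorem cm_a1 {Q E Z : Type} [Group Q] [AddCommGroup E] [AddCommGroup Z] {D : Dat ℤ Q E Z}
    (x y : Con D) (hx : x.q = 1) :
    (cm x y).a = x.a - D.pe y.q x.a := by
  simp only [cm, Con.mul_a, Con.mul_q, Con.inv_a, Con.inv_q, hx, map_one, inv_one, one_mul,
    mul_one, map_neg, Module.End.one_apply]
  rw [← Module.End.mul_apply (D.pe y.q), ← map_mul, mul_inv_cancel, map_one, Module.End.one_apply]
  abel

/-! ### the auxiliary finite group -/

/-- the group of order five -/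
abbrev PP : Type := Multiplicative (ZMod 5)

theorem pp_cm (x y : PP) : cm x y = 1 := cm_eq_one (mul_comm _ _)

theorem pp_pow (x : PP) : x ^ 5 = 1 := by
  have h : ∀ a : ZMod 5, 5 • a = 0 := by decide
  exact h (Multiplicative.toAdd x)

/-! ### the words -/

def bw : FreeGroup ℕ := (FreeGroup.of 1) ^ 36
def vw : FreeGroup ℕ := cm (cm (cm (FreeGroup.of 0) bw) bw) bw
def aw : FreeGroup ℕ := cm (FreeGroup.of 2) ((FreeGroup.of 3) ^ 20)
def cw : ℕ → FreeGroup ℕ
  | 0 => 1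
  | m + 1 => cw m * (FreeGroup.of (m + 4)) ^ 2
def Lw (n : ℕ) : FreeGroup ℕ := cm (cm vw aw) (cw n * aw * (cw n)⁻¹)

/-! ### the law holds in the big group -/

theorem wr_sq_s {B : Type} [CommGroup B] (x : Wr B) : (x ^ 2).s = 0 := by
  rw [pow_two]
  exact Wr.add_self_zmod2 _

/-- the top group has exponent dividing twelve -/
theorem wr_four (x : Wr ℤˣ) : x ^ 4 = 1 := by
  have h1 : ∀ y : Wr ℤˣ, y.s = 0 → y * y = 1 := by
    intro y hy
    refine Wr.ext (funext fun m => ?_) ?_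
    · show y.b m * y.b (m + y.s) = 1
      rw [hy, add_zero]
      exact Int.units_mul_self _
    · exact Wr.add_self_zmod2 _
  rw [show (4 : ℕ) = 2 * 2 from rfl, pow_mul, pow_two (x ^ 2)]
  exact h1 _ (wr_sq_s x)

theorem c3_three (x : C3) : x ^ 3 = 1 := by
  have h : ∀ a : ZMod 3, 3 • a = 0 := by decide
  exact h (Multiplicative.toAdd x)

theorem tt_twelve (x : TT) : x ^ 12 = 1 := by
  refine Prod.ext ?_ ?_
  · show x.1 ^ 12 = 1
    rw [show (12 : ℕ) = 4 * 3 from rfl, pow_mul, wr_four, one_pow]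
  · show x.2 ^ 12 = 1
    rw [show (12 : ℕ) = 3 * 4 from rfl, pow_mul, c3_three, one_pow]

theorem con_pow_q {Q E Z : Type} [Group Q] [AddCommGroup E] [AddCommGroup Z] {D : Dat ℤ Q E Z}
    (x : Con D) (n : ℕ) : (x ^ n).q = x.q ^ n := map_pow (Con.proj D) x n

/-- `[N, N] ≤ Z` -/
theorem g_cl1 (x y : Con gdat) (hx : x.q = 1) (hy : y.q = 1) :
    (cm x y).q = 1 ∧ (cm x y).a = 0 := by
  refine ⟨?_, ?_⟩
  · rw [cm_q, hx, hy]; exact cm_eq_one rfl
  · rw [cm_a1 x y hx, hy, map_one, Module.End.one_apply, sub_self]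

/-- `Z` centralises `N` -/
theorem g_cl2 (x y : Con gdat) (hx : x.q = 1) (hxa : x.a = 0) (hy : y.q = 1) : cm x y = 1 := by
  apply cm_eq_one
  refine FBZ.Con.ext ?_ ?_ ?_
  · rw [Con.mul_a, Con.mul_a, hxa, hx, hy, map_one]
    simp
  · rw [Con.mul_c, Con.mul_c, hxa, hx, hy, map_one, map_one]
    simp [add_comm]
  · rw [Con.mul_q, Con.mul_q, hx, hy]

/-- the big group -/
abbrev GG : Type := Con (sdat (fdat (P := PP) (Con.rep gdat)))

theorem vw_q (φ : FreeGroup ℕ →* Con gdat × PP) : φ vw = 1 := by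
  refine Prod.ext ?_ ?_
  · let g : FreeGroup ℕ →* Con gdat := (MonoidHom.fst _ _).comp φ
    show g vw = 1
    have hb : (g bw).q = 1 := by
      rw [bw, map_pow, con_pow_q, show (36 : ℕ) = 12 * 3 from rfl, pow_mul, tt_twelve, one_pow]
    have h1 : (g (cm (FreeGroup.of 0) bw)).q = 1 := by
      rw [map_cm, cm_q, hb]
      exact cm_eq_one (by rw [one_mul, mul_one])
    obtain ⟨h2, h3⟩ := g_cl1 _ _ h1 hb
    rw [vw, map_cm, map_cm]
    exact g_cl2 _ _ h2 h3 hb
  · let p : FreeGroup ℕ →* PP := (MonoidHom.snd _ _).comp φ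
    show p vw = 1
    rw [vw, map_cm]
    exact pp_cm _ _

theorem aw_q (φ : FreeGroup ℕ →* Con gdat × PP) : (φ aw).1.q = 1 ∧ (φ aw).2 = 1 := by
  constructor
  · let g : FreeGroup ℕ →* Con gdat := (MonoidHom.fst _ _).comp φ
    show (g aw).q = 1
    rw [aw, map_cm, cm_q, map_pow, con_pow_q]
    apply cm_eq_one
    refine Prod.ext ?_ (mul_comm _ _)
    show (g (FreeGroup.of 2)).q.1 * (g (FreeGroup.of 3)).q.1 ^ 20 =
      (g (FreeGroup.of 3)).q.1 ^ 20 * (g (FreeGroup.of 2)).q.1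
    rw [show (20 : ℕ) = 4 * 5 from rfl, pow_mul, wr_four, one_pow, one_mul, mul_one]
  · let p : FreeGroup ℕ →* PP := (MonoidHom.snd _ _).comp φ
    show p aw = 1
    rw [aw, map_cm]
    exact pp_cm _ _

theorem cw_s (φ : FreeGroup ℕ →* Con gdat × PP) (n : ℕ) : (φ (cw n)).1.q.1.s = 0 := by
  induction n with
  | zero => simp [cw]
  | succ m ih =>
    rw [cw, map_mul, Prod.fst_mul, Con.mul_q, Prod.fst_mul, Wr.mul_s, ih, map_pow, pow_two,
      Prod.fst_mul, Con.mul_q, zero_add, Prod.fst_mul]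
    exact Wr.add_self_zmod2 _

theorem rep_kill (A A' : Con gdat) (hA : A.q = 1) (hA' : A'.q = 1)
    (hom : gdat.om A'.a A.a = 0) (v : ℤ × (ZMod 2 → ℂ × ℂ) × (ZMod 2 → ℂ)) :
    (v - Con.rep gdat A v) - Con.rep gdat A' (v - Con.rep gdat A v) = 0 := by
  obtain ⟨r, e, w⟩ := v
  rw [Con.rep_apply, Con.rep_apply]
  simp only [hA, hA', map_one, Module.End.one_apply, Prod.mk_sub_mk]
  refine Prod.ext ?_ (Prod.ext ?_ ?_)
  · simp
  · simp
  · have h1 : gdat.om A'.a (r • A.a) = 0 := by rw [map_smul, hom, smul_zero]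
    have h2 : gdat.om A'.a (e - (r • A.a + e)) = 0 := by
      rw [map_sub, map_add, h1, zero_add, sub_self]
    show (w - (r • A.c + w + gdat.om A.a e)) - ((r - r) • A'.c +
      (w - (r • A.c + w + gdat.om A.a e)) + gdat.om A'.a (e - (r • A.a + e))) = 0
    rw [h2, sub_self, zero_smul, zero_add, add_zero, sub_self]

theorem Lw_law (n : ℕ) (f : FreeGroup ℕ →* GG) : f (Lw n) = 1 := by
  let φ : FreeGroup ℕ →* Con gdat × PP := (Con.proj _).comp f
  have hv : (f vw).q = 1 := vw_q φ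
  obtain ⟨ha1, ha2⟩ := aw_q φ
  have hc := cw_s φ n
  set x := f vw with hx
  set y := f aw with hy
  set c := f (cw n) with hcc
  have ha1' : y.q.1.q = 1 := ha1
  have ha2' : y.q.2 = 1 := ha2
  have hc' : c.q.1.q.1.s = 0 := hc
  have h1 : f (Lw n) = cm (cm x y) (c * y * c⁻¹) := by
    rw [Lw, map_cm, map_cm, map_mul, map_mul, map_inv]
  rw [h1]
  have hq1 : (cm x y).q = 1 := by
    rw [cm_q, hv]; exact cm_eq_one (by rw [one_mul, mul_one])
  refine FBZ.Con.ext ?_ (Subsingleton.elim _ _) ?_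
  · rw [cm_a1 _ _ hq1, cm_a1 _ _ hv, Con.one_a]
    funext p
    show (x.a p - Con.rep gdat y.q.1 (x.a ((y.q.2)⁻¹ * p))) -
      Con.rep gdat (c * y * c⁻¹).q.1 (x.a (((c * y * c⁻¹).q.2)⁻¹ * p) -
        Con.rep gdat y.q.1 (x.a ((y.q.2)⁻¹ * (((c * y * c⁻¹).q.2)⁻¹ * p)))) = 0
    have e2 : (c * y * c⁻¹).q.2 = 1 := by
      rw [Con.mul_q, Con.mul_q, Con.inv_q, Prod.snd_mul, Prod.snd_mul, Prod.snd_inv, ha2', mul_one,
        mul_inv_cancel]
    have e1 : (c * y * c⁻¹).q.1 = c.q.1 * y.q.1 * (c.q.1)⁻¹ := rfl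
    simp only [e2, ha2', inv_one, one_mul, e1]
    refine rep_kill _ _ ha1' ?_ ?_ _
    · simp [ha1']
    · have ha' : (c.q.1 * y.q.1 * (c.q.1)⁻¹).a = gdat.pe c.q.1.q y.q.1.a := by
        simp only [Con.mul_a, Con.mul_q, ha1', mul_one, Con.inv_a, map_neg]
        rw [← Module.End.mul_apply, ← map_mul, mul_inv_cancel, map_one, Module.End.one_apply]
        abel
      rw [ha']
      funext m
      show (vl (c.q.1.q.1.b m, c.q.1.q.2) • y.q.1.a (m + c.q.1.q.1.s)).1 * (y.q.1.a m).2 -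
        (vl (c.q.1.q.1.b m, c.q.1.q.2) • y.q.1.a (m + c.q.1.q.1.s)).2 * (y.q.1.a m).1 = 0
      rw [hc', add_zero, Prod.smul_fst, Prod.smul_snd, smul_eq_mul, smul_eq_mul]
      ring
  · rw [cm_q, hq1, Con.one_q]
    exact cm_eq_one (by rw [one_mul, mul_one])

end Pool.Agent.H74R2.TF
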